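import Pool.Agent.Helper12.CS.Main
import Pool.Graph.R_pool_sql_team_seeded_843ab51a.Helper29.BE.Dens

/-!
# `2 n + h = q + r` with `q`, `r` and `p_{q+2} + h` prime: the SAME shift for both conditions

The question asks, for every even number `2 n`, for a prime `q` such that `2 n - q` and `p_{q+2} + 2` are prime. We show:
for EVERY large even number `2 n` there are many even `h` such that, for many primes `q` in an arbitrary not too sparse
set of primes, both `(2 n + h) - q` and `p_{q+2} + h` are prime: both numbers `2 n - q` and `p_{q+2}` become prime when the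
same number `h` is added.
-/

set_option autoImplicit false

open Finset Filter Topology

namespace Pool.Agent.Results.MP_0ec542_nt.CommonShift

/-- The `j`-th prime: `p 1 = 2`, `p 2 = 3`, `p 3 = 5`, and so on. -/
noncomputable def p (j : ℕ) : ℕ := Nat.nth Nat.Prime (j - 1)

/-- The `q ∈ Q` for which `N - q` and `p_{q+2} + g` are both prime. -/
noncomputable def Good (Q : Finset ℕ) (N g : ℕ) : Finset ℕ :=
  Q.filter fun q => (N - q).Prime ∧ (p (q + 2) + g).Prime

open Pool.Agent.Helper29.BE (P P_prime P_mono P_inj P_odd P_strict le_P tLog)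

lemma p_eq : p = P := rfl

lemma ev (A : ℕ) : ∀ᶠ n : ℕ in atTop, 8 ≤ Real.log n ∧ 1 ≤ Real.log (Real.log (Real.log n)) ∧
    Real.log n ^ A ≤ n ∧ 8 * Real.log n ^ A ≤ n := by
  have h1 := (isLittleO_log_rpow_rpow_atTop (s := (1 : ℝ)) (A : ℝ) (by norm_num)).bound
    (by norm_num : (0 : ℝ) < 1 / 8)
  have h2 := (tendsto_natCast_atTop_atTop (R := ℝ)).eventually h1
  have hlll : Tendsto (fun x : ℕ => Real.log (Real.log (Real.log (x : ℝ)))) atTop atTop :=
    Real.tendsto_log_atTop.comp (Real.tendsto_log_atTop.comp tLog)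
  filter_upwards [h2, tLog.eventually_ge_atTop 8, hlll.eventually_ge_atTop 1] with n h3 h4 h5
  rw [Real.norm_of_nonneg (Real.rpow_nonneg (by linarith) _),
    Real.norm_of_nonneg (by positivity), Real.rpow_one, Real.rpow_natCast] at h3
  have : (0 : ℝ) ≤ Real.log n ^ A := by positivity
  exact ⟨h4, h5, by linarith, by linarith⟩

/-- the two cases are the same up to the order of `a` and `b` -/
lemma core (A : ℕ) : ∃ c : ℝ, 0 < c ∧ ∃ M : ℕ, ∀ᶠ n : ℕ in atTop, ∀ H : ℕ, n ≤ H → (H : ℝ) ≤ n * Real.log n ^ A →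
    ∀ (K T : Finset ℕ) (a b : ℕ → ℕ), (n : ℝ) ≤ #K * Real.log n ^ A → T ⊆ K → #K ≤ 4 * #T →
    (∀ t ∈ T, a t % 2 = 1 ∧ b t % 2 = 1 ∧ a t < b t ∧ b t ≤ H) → Set.InjOn a T → Set.InjOn b T →
    Set.InjOn (fun t => b t - a t) T →
    c * H / Real.log (Real.log (Real.log n)) ^ M ≤
      #{h ∈ Icc 1 H | Even h ∧ c * #K / Real.log n ^ 2 ≤ (#{t ∈ K | (a t + h).Prime ∧ (b t + h).Prime} : ℝ)} := by
  classical
  obtain ⟨c, hc, M, hm⟩ := Pool.Agent.Helper12.CS.main (2 * A + 1)
  refine ⟨min (c / 2 ^ M) (c / 16), by positivity, M, ?_⟩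
  obtain ⟨H₀, hm⟩ := eventually_atTop.1 hm
  filter_upwards [ev A, eventually_ge_atTop H₀, eventually_ge_atTop 3] with n ⟨h8, hl3, hA, hA8⟩ hn hn3
  intro H hnH hHn K T a b hK hTK hKT hT ha hb hd
  have hn0 : (0 : ℝ) < n := by
    have : 0 < n := by omega
    exact_mod_cast this
  have hnH' : (n : ℝ) ≤ H := by exact_mod_cast hnH
  have hlogle : Real.log n ≤ Real.log H := Real.log_le_log hn0 hnH'
  have hHsq : (H : ℝ) ≤ (n : ℝ) ^ 2 := by
    calc (H : ℝ) ≤ n * Real.log n ^ A := hHn
      _ ≤ n * n := by gcongr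
      _ = (n : ℝ) ^ 2 := by ring
  have hlog2 : Real.log H ≤ 2 * Real.log n := by
    have h1 := Real.log_le_log (by linarith) hHsq
    rw [Real.log_pow] at h1
    exact_mod_cast h1
  have hl : Real.log 2 ≤ 1 := by
    have := Real.log_two_lt_d9
    linarith
  set L := Real.log (n : ℝ) with hL
  set LH := Real.log (H : ℝ) with hLH
  have hLL : 1 ≤ Real.log L := by
    have h1 : 0 < Real.log L := by
      apply Real.log_pos
      linarith
    by_contra hcon
    push Not at hcon
    have h2 := Real.log_nonpos h1.le hcon.le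
    linarith
  have hloglog : Real.log LH ≤ 2 * Real.log L := by
    have h1 : Real.log LH ≤ Real.log (2 * L) := Real.log_le_log (by linarith) hlog2
    rw [Real.log_mul (by norm_num) (by linarith)] at h1
    linarith
  have hloglog' : Real.log L ≤ Real.log LH := Real.log_le_log (by linarith) hlogle
  have hlll : Real.log (Real.log LH) ≤ 2 * Real.log (Real.log L) := by
    have h1 : Real.log (Real.log LH) ≤ Real.log (2 * Real.log L) := Real.log_le_log (by linarith) hloglog
    rw [Real.log_mul (by norm_num) (by linarith)] at h1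
    linarith
  have hlll0 : 0 < Real.log (Real.log LH) := by
    have h1 := Real.log_le_log (by linarith) hloglog'
    linarith
  have hKT' : (#K : ℝ) ≤ 4 * #T := by exact_mod_cast hKT
  have hmain := hm H (by omega) T a b hT ha hb hd (by
    have h1 : L ^ A ≤ LH ^ A := pow_le_pow_left₀ (by linarith) hlogle _
    have h2 : (0 : ℝ) ≤ LH ^ A := by
      have : 0 ≤ LH := by linarith
      positivity
    calc (H : ℝ) ≤ n * L ^ A := hHn
      _ ≤ (#K * L ^ A) * L ^ A := by gcongr
      _ ≤ ((4 * #T) * LH ^ A) * LH ^ A := by gcongr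
      _ ≤ ((LH * #T) * LH ^ A) * LH ^ A := by
          have : (4 : ℝ) ≤ LH := by linarith
          gcongr
      _ = #T * LH ^ (2 * A + 1) := by ring)
  have hT0 : 0 < #T := by
    by_contra hcon
    have h1 : #T = 0 := by omega
    have h2 : #K = 0 := by omega
    rw [h2] at hK
    simp at hK
    omega
  have hT0' : (0 : ℝ) < #T := by exact_mod_cast hT0
  have hH0 : (0 : ℝ) ≤ H := Nat.cast_nonneg _
  calc min (c / 2 ^ M) (c / 16) * H / Real.log (Real.log L) ^ M
      ≤ (c / 2 ^ M) * H / Real.log (Real.log L) ^ M := by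
        gcongr
        exact min_le_left _ _
    _ = c * H / (2 * Real.log (Real.log L)) ^ M := by
        rw [mul_pow]
        field_simp
    _ ≤ c * H / Real.log (Real.log LH) ^ M := by
        gcongr
    _ ≤ _ := hmain
    _ ≤ _ := by
        apply Nat.cast_le.2
        apply card_le_card
        intro h hh
        rw [mem_filter] at hh ⊢
        have hpos : 0 < c * #T / LH ^ 2 := by
          have : 0 < LH := by linarith
          positivity
        have hcard : (0 : ℝ) < #{t ∈ T | (a t + h).Prime ∧ (b t + h).Prime} := lt_of_lt_of_le hpos hh.2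
        have hcard' : 0 < #{t ∈ T | (a t + h).Prime ∧ (b t + h).Prime} := by exact_mod_cast hcard
        refine ⟨hh.1, ?_, ?_⟩
        · obtain ⟨t, ht⟩ := card_pos.1 hcard'
          obtain ⟨ht1, ht2, ht3⟩ := mem_filter.1 ht
          obtain ⟨h1, h2, h3, h4⟩ := hT t ht1
          rw [Nat.even_iff]
          rcases ht3.eq_two_or_odd with h5 | h5
          · omega
          · omega
        · have hsub : (#{t ∈ T | (a t + h).Prime ∧ (b t + h).Prime} : ℝ) ≤
              #{t ∈ K | (a t + h).Prime ∧ (b t + h).Prime} := by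
            exact_mod_cast card_le_card (filter_subset_filter _ hTK)
          refine le_trans ?_ (hh.2.trans hsub)
          have hLp : 0 < L := by linarith
          have hLHp : 0 < LH := by linarith
          calc min (c / 2 ^ M) (c / 16) * #K / L ^ 2 ≤ (c / 16) * (4 * #T) / L ^ 2 := by
                gcongr
                exact min_le_right _ _
            _ = c * #T / (2 * L) ^ 2 := by ring
            _ ≤ c * #T / LH ^ 2 := by gcongr

/-- **The same shift in both conditions.** For every `A` there are `c > 0`, `D` and `n₀` such that for EVERY `n ≥ n₀`,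
all `H ≤ n log ^ A n`, all even `x`, `y` with `2 n + x ≤ H` and `p_{2n+2} + y ≤ H` (for example `x = y = 0`) and ALL sets
`Q` of at least `n / log ^ A n` primes `q < 2 n`: for at least `c H / (log log log n) ^ D` even numbers `h ≤ H` both
`(2 n + x + h) - q` and `p_{q+2} + (y + h)` are prime for at least `c #Q / log ^ 2 n` elements `q` of `Q`. -/
theorem result (A : ℕ) : ∃ (c : ℝ) (D n₀ : ℕ), 0 < c ∧ ∀ n : ℕ, n₀ ≤ n → ∀ H : ℕ, (H : ℝ) ≤ n * Real.log n ^ A →
    ∀ x y : ℕ, Even x → Even y → 2 * n + x ≤ H → p (2 * n + 2) + y ≤ H →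
    ∀ Q : Finset ℕ, (∀ q ∈ Q, q.Prime ∧ q < 2 * n) → (n : ℝ) ≤ Q.card * Real.log n ^ A →
      c * H / Real.log (Real.log (Real.log n)) ^ D ≤
        (((Icc 1 H).filter fun h => Even h ∧
          c * Q.card / Real.log n ^ 2 ≤ ((Good Q (2 * n + x + h) (y + h)).card : ℝ)).card : ℝ) := by
  classical
  obtain ⟨c, hc, D, hmain⟩ := core A
  obtain ⟨n₀, hn₀⟩ := eventually_atTop.1 (hmain.and (ev A))
  refine ⟨c, D, n₀, hc, ?_⟩
  intro n hn H hHn x y hx hy hxH hyH K hK hKn
  obtain ⟨hmain, h8, -, -, hA8⟩ := hn₀ n hn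
  rw [p_eq] at hyH
  have hL0 : (0 : ℝ) < Real.log n := by linarith
  have hnH : n ≤ H := by omega
  have hK8 : 8 ≤ #K := by
    have h1 : 8 * Real.log n ^ A ≤ #K * Real.log n ^ A := hA8.trans hKn
    have h2 : (8 : ℝ) ≤ #K := le_of_mul_le_mul_right h1 (by positivity)
    exact_mod_cast h2
  have hx2 : x % 2 = 0 := Nat.even_iff.1 hx
  have hy2 : y % 2 = 0 := Nat.even_iff.1 hy
  set a : ℕ → ℕ := fun q => 2 * n + x - q with ha
  set b : ℕ → ℕ := fun q => P (q + 2) + y with hb
  set K' := K.filter (fun q => q ≠ 2) with hK'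
  have hmem : ∀ q ∈ K', q % 2 = 1 ∧ q < 2 * n := by
    intro q hq
    obtain ⟨h1, h2⟩ := mem_filter.1 hq
    obtain ⟨h3, h4⟩ := hK q h1
    exact ⟨(h3.eq_two_or_odd.resolve_left h2), h4⟩
  have hodd : ∀ q ∈ K', a q % 2 = 1 ∧ b q % 2 = 1 := by
    intro q hq
    obtain ⟨h1, h2⟩ := hmem q hq
    have h3 := (P_odd (show 2 ≤ q + 2 by omega)).2
    simp only [ha, hb]
    omega
  have hbound : ∀ q ∈ K', a q ≤ H ∧ b q ≤ H := by
    intro q hq
    obtain ⟨h1, h2⟩ := hmem q hq
    have h3 := P_mono (show q + 2 ≤ 2 * n + 2 by omega)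
    simp only [ha, hb]
    omega
  have haS : ∀ q ∈ K', ∀ q' ∈ K', q < q' → a q' < a q ∧ b q < b q' := by
    intro q hq q' hq' hqq
    obtain ⟨h1, h2⟩ := hmem q hq
    obtain ⟨h3, h4⟩ := hmem q' hq'
    have h5 : P (q + 2) < P (q' + 2) := P_strict (by omega) (by omega)
    simp only [ha, hb]
    omega
  have hinja : Set.InjOn a K' := by
    intro k hk k' hk' e
    rcases lt_trichotomy k k' with h | h | h
    · have := haS k hk k' hk' h
      omega
    · exact h
    · have := haS k' hk' k hk h
      omega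
  have hinjb : Set.InjOn b K' := by
    intro k hk k' hk' e
    rcases lt_trichotomy k k' with h | h | h
    · have := haS k hk k' hk' h
      omega
    · exact h
    · have := haS k' hk' k hk h
      omega
  set K1 := K'.filter (fun k => a k < b k) with hK1
  set K2 := K'.filter (fun k => b k < a k) with hK2
  have hcount : #K ≤ #K1 + #K2 + 2 := by
    have hsub : K ⊆ (K1 ∪ K2) ∪ (K.filter (fun k => k = 2) ∪ K'.filter (fun k => a k = b k)) := by
      intro k hk
      simp only [hK1, hK2, hK', mem_union, mem_filter]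
      rcases lt_trichotomy (a k) (b k) with h | h | h
      all_goals by_cases h2 : k = 2
      all_goals first
        | (simp [hk, h, h2]; done)
        | (subst h2; simp [hk, h])
    have h1 : #(K.filter (fun k => k = 2)) ≤ 1 := by
      apply card_le_one.2
      intro k hk k' hk'
      exact (mem_filter.1 hk).2.trans (mem_filter.1 hk').2.symm
    have h2 : #(K'.filter (fun k => a k = b k)) ≤ 1 := by
      apply card_le_one.2
      intro k hk k' hk'
      obtain ⟨e1, e2⟩ := mem_filter.1 hk
      obtain ⟨e3, e4⟩ := mem_filter.1 hk'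
      rcases lt_trichotomy k k' with h | h | h
      · have := haS k e1 k' e3 h
        omega
      · exact h
      · have := haS k' e3 k e1 h
        omega
    have h3 := (card_le_card hsub).trans ((card_union_le _ _).trans
      (add_le_add (card_union_le _ _) (card_union_le _ _)))
    omega
  have hK1K : K1 ⊆ K := (filter_subset _ _).trans (filter_subset _ _)
  have hK2K : K2 ⊆ K := (filter_subset _ _).trans (filter_subset _ _)
  have hconv : ∀ h : ℕ, (K.filter fun t => (a t + h).Prime ∧ (b t + h).Prime) =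
      Good K (2 * n + x + h) (y + h) := by
    intro h
    unfold Good
    rw [p_eq]
    apply filter_congr
    intro q hq
    have h1 := (hK q hq).2
    have e1 : 2 * n + x - q + h = 2 * n + x + h - q := by omega
    simp only [ha, hb, add_assoc] at e1 ⊢
    rw [e1]
  by_cases hcase : #K ≤ 4 * #K1
  · have h1 := hmain H hnH hHn K K1 a b hKn hK1K hcase ?_ ?_ ?_ ?_
    · refine h1.trans ?_
      norm_cast
      apply card_le_card
      intro h hh
      rw [mem_filter] at hh ⊢
      refine ⟨hh.1, hh.2.1, ?_⟩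
      rw [← hconv h]
      exact hh.2.2
    · intro t ht
      obtain ⟨h1, h2⟩ := mem_filter.1 ht
      exact ⟨(hodd t h1).1, (hodd t h1).2, h2, (hbound t h1).2⟩
    · exact hinja.mono (fun t ht => (mem_filter.1 ht).1)
    · exact hinjb.mono (fun t ht => (mem_filter.1 ht).1)
    · intro k hk k' hk' e
      obtain ⟨e1, e2⟩ := mem_filter.1 hk
      obtain ⟨e3, e4⟩ := mem_filter.1 hk'
      simp only at e
      rcases lt_trichotomy k k' with h | h | h
      · have := haS k e1 k' e3 h
        omega
      · exact h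
      · have := haS k' e3 k e1 h
        omega
  · have hcase2 : #K ≤ 4 * #K2 := by omega
    have h1 := hmain H hnH hHn K K2 b a hKn hK2K hcase2 ?_ ?_ ?_ ?_
    · refine h1.trans ?_
      norm_cast
      apply card_le_card
      intro h hh
      rw [mem_filter] at hh ⊢
      refine ⟨hh.1, hh.2.1, ?_⟩
      rw [← hconv h]
      simpa only [and_comm] using hh.2.2
    · intro t ht
      obtain ⟨h1, h2⟩ := mem_filter.1 ht
      exact ⟨(hodd t h1).2, (hodd t h1).1, h2, (hbound t h1).1⟩
    · exact hinjb.mono (fun t ht => (mem_filter.1 ht).1)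
    · exact hinja.mono (fun t ht => (mem_filter.1 ht).1)
    · intro k hk k' hk' e
      obtain ⟨e1, e2⟩ := mem_filter.1 hk
      obtain ⟨e3, e4⟩ := mem_filter.1 hk'
      simp only at e
      rcases lt_trichotomy k k' with h | h | h
      · have := haS k e1 k' e3 h
        omega
      · exact h
      · have := haS k' e3 k e1 h
        omega

end Pool.Agent.Results.MP_0ec542_nt.CommonShift
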