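import Pool.Agent.Helper51.UG.Idx
import Pool.Graph.R_pool_sql_team_seeded_843ab51a.Helper29.BE.Dens

set_option autoImplicit false

/-!
# `2 n = q + r` and `p_{q+2} + 2`: the structure of the set of the shifts `h` for which `2 n + h - q` and `p_{q+2} + h` are
both prime

The question asks, for every `n > 2`, for a prime `q` such that `2 n - q` and `p_{q+2} + 2` are both prime. Here `2 n` and the
shift `2` are moved together by `h`. For EVERY large `n` and almost every prime `q < 2 n` (also for almost all elements of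
arbitrary sets of at least `n / log ^ A n` primes) the set of the `h` for which both `2 n + h - q` and `p_{q+2} + h` are
prime has the expected order of magnitude in every long window, and it is full of homothetic copies of every finite
pattern: for an ARBITRARY set `𝒜` of such `h` in the window, almost all of its members `h` have `h + d T` contained in `𝒜` for
at least `D ^ (1 - ε)` of the `d ≤ D`, for EVERY finite set `T` of at most `m` integers in `[-M, M]`, uniformly up to
`D M = X ^ (1 - ε)`, `X` the length of the window.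
-/

namespace Pool.Agent.Results.MP_0ec542_nt.PatternsOfShifts

open Finset Filter
open Pool.Agent.Helper29.BE (P P_prime P_mono P_inj P_odd P_strict le_P tLog)
open Pool.Agent.Helper51.UG (CS GoodPair cps)

/-- The `j`-th prime: `p 1 = 2`, `p 2 = 3`, `p 3 = 5`, and so on. -/
noncomputable def p (j : ℕ) : ℕ := Nat.nth Nat.Prime (j - 1)

/-- The shifts `h` with `v < h ≤ v + X` for which `(2 n + x + h) - q` and `p_{q+2} + (y + h)` are both prime. -/
def Shifts (n q x y v X : ℕ) : Set ℕ :=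
  {h | v < h ∧ h ≤ v + X ∧ ((2 * n + x + h) - q).Prime ∧ (p (q + 2) + (y + h)).Prime}

/-- The number of the `1 ≤ d ≤ D` for which all the numbers `h + d t`, `t ∈ T`, belong to `𝒜`. -/
noncomputable def scales (𝒜 : Set ℕ) (T : Finset ℤ) (D h : ℕ) : ℕ :=
  {d : ℕ | 1 ≤ d ∧ d ≤ D ∧ ∀ t ∈ T, ∃ g ∈ 𝒜, (g : ℤ) = h + d * t}.ncard

/-- In all windows `(v, v + X]` within `(0, H]` of length at least `H / log ^ A n` the shifts of `Shifts n q x y v X` have
the expected order of magnitude, and for every set `𝒜` of them and every set `T` of at most `m` integers in `[-M, M]` all but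
`δ #(Shifts n q x y v X)` members `h` of `𝒜` have at least `D ^ (1 - ε)` numbers `d ≤ D` with `h + d T` contained in `𝒜`. -/
def Rich (c : ℝ) (A m : ℕ) (ε δ : ℝ) (n q x y H : ℕ) : Prop :=
  ∀ v X : ℕ, v + X ≤ H → (H : ℝ) / Real.log n ^ A ≤ X →
    c * (X / Real.log n ^ 2) ≤ ((Shifts n q x y v X).ncard : ℝ) ∧
    ∀ M D : ℕ, 1 ≤ M → (X : ℝ) ^ ε ≤ D → (D : ℝ) * M ≤ (X : ℝ) ^ (1 - ε) →
      ∀ 𝒜 ⊆ Shifts n q x y v X, ∀ T : Finset ℤ, T.card ≤ m → (∀ t ∈ T, |t| ≤ M) →
        ({h : ℕ | h ∈ 𝒜 ∧ (scales 𝒜 T D h : ℝ) < (D : ℝ) ^ (1 - ε)}.ncard : ℝ) ≤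
          δ * ((Shifts n q x y v X).ncard : ℝ)

lemma p_eq : p = P := rfl

/-- **Common shifts for EVERY large `n` and almost every prime `q < 2 n`.** -/
theorem result : ∃ c : ℝ, 0 < c ∧ ∀ (A U m : ℕ) (ε δ : ℝ), 0 < ε → ε ≤ 1 / 2 → 0 < δ →
    ∃ n₀ : ℕ, ∀ n : ℕ, n₀ ≤ n → ∀ H : ℕ, (H : ℝ) ≤ n * Real.log n ^ A →
    ∀ x y : ℕ, Even x → Even y → 2 * n + x ≤ H → p (2 * n + 2) + y ≤ H →
    ∀ Q : Finset ℕ, (∀ q ∈ Q, q.Prime ∧ q < 2 * n) → (n : ℝ) ≤ Q.card * Real.log n ^ A →
      ({q : ℕ | q ∈ Q ∧ ¬ Rich c A m ε δ n q x y H}.ncard : ℝ) ≤ Q.card / Real.log n ^ U := by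
  classical
  obtain ⟨c, hc, hfam⟩ := Pool.Agent.Helper51.UG.shiftFam
  refine ⟨c / 4, by positivity, fun A U m ε δ hε hε1 hδ => ?_⟩
  obtain ⟨N₀, h0⟩ := hfam A (2 * A + 1) (U + 1) m ε δ hε hε1 hδ
  obtain ⟨n₁, h1⟩ := Pool.Agent.H373R2.T7.ev_L' 8
  obtain ⟨n₂, h2⟩ := Pool.Agent.Helper51.UG.ev_logpow 1 A 1 (by norm_num)
  obtain ⟨n₃, h3⟩ := Pool.Agent.Helper51.UG.ev_logpow 16 (A + U) 1 (by norm_num)
  refine ⟨max (max N₀ n₁) (max (max n₂ n₃) 8), fun n hn H hHn x y hx hy hxH hyH Q hQ hnQ => ?_⟩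
  have g0 : N₀ ≤ n := ((le_max_left _ _).trans (le_max_left _ _)).trans hn
  have g1 := h1 n (((le_max_right _ _).trans (le_max_left _ _)).trans hn)
  have g2 := h2 n ((((le_max_left _ _).trans (le_max_left _ _)).trans (le_max_right _ _)).trans hn)
  have g3 := h3 n ((((le_max_right _ _).trans (le_max_left _ _)).trans (le_max_right _ _)).trans hn)
  have g4 : 8 ≤ n := ((le_max_right _ _).trans (le_max_right _ _)).trans hn
  rw [Real.rpow_one] at g2 g3
  rw [one_mul] at g2
  rw [p_eq] at hyH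
  have hnH : n ≤ H := by omega
  have hn0 : (0 : ℝ) < n := by
    have : 0 < n := by omega
    exact_mod_cast this
  have hnH' : (n : ℝ) ≤ H := by exact_mod_cast hnH
  have hH0 : (0 : ℝ) < H := by linarith
  set L := Real.log (n : ℝ) with hL
  have hL0 : 0 < L := by linarith
  have hlogle : L ≤ Real.log H := Real.log_le_log hn0 hnH'
  have hHsq : (H : ℝ) ≤ (n : ℝ) ^ 2 := by
    calc (H : ℝ) ≤ n * L ^ A := hHn
      _ ≤ n * n := by gcongr
      _ = (n : ℝ) ^ 2 := by ring
  have hlog2 : Real.log H ≤ 2 * L := by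
    have h1 := Real.log_le_log hH0 hHsq
    rw [Real.log_pow] at h1
    exact_mod_cast h1
  have hx2 : x % 2 = 0 := Nat.even_iff.1 hx
  have hy2 : y % 2 = 0 := Nat.even_iff.1 hy
  set a : ℕ → ℕ := fun q => (2 * n + x) - q with ha
  set b : ℕ → ℕ := fun q => P (q + 2) + y with hb
  have haS : ∀ q ∈ Q, ∀ q' ∈ Q, q < q' → a q' < a q ∧ b q < b q' := by
    intro q hq q' hq' hqq
    have h1 := hQ q hq
    have h2 := hQ q' hq'
    have h5 : P (q + 2) < P (q' + 2) := P_strict (by omega) (by omega)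
    simp only [ha, hb]
    omega
  set K : Finset ℕ := Q.filter (fun q => q ≠ 2 ∧ a q ≠ b q) with hK
  have hcard1 : (Q.filter (fun q => ¬ a q ≠ b q)).card ≤ 1 := by
    apply card_le_one.2
    intro k hk k' hk'
    obtain ⟨e1, e2⟩ := mem_filter.1 hk
    obtain ⟨e3, e4⟩ := mem_filter.1 hk'
    push Not at e2 e4
    rcases lt_trichotomy k k' with h | h | h
    · have := haS k e1 k' e3 h
      omega
    · exact h
    · have := haS k' e3 k e1 h
      omega
  have hQK : Q ⊆ K ∪ ({2} ∪ Q.filter (fun q => ¬ a q ≠ b q)) := by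
    intro q hq
    rw [mem_union, mem_union, mem_singleton]
    by_cases h1 : q = 2
    · exact Or.inr (Or.inl h1)
    by_cases h2 : a q ≠ b q
    · exact Or.inl (mem_filter.2 ⟨hq, h1, h2⟩)
    · exact Or.inr (Or.inr (mem_filter.2 ⟨hq, h2⟩))
  have hcount : Q.card ≤ K.card + 2 := by
    have h1 := card_le_card hQK
    have h2 := card_union_le K ({2} ∪ Q.filter (fun q => ¬ a q ≠ b q))
    have h3 := card_union_le ({2} : Finset ℕ) (Q.filter (fun q => ¬ a q ≠ b q))
    rw [card_singleton] at h3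
    omega
  have hKQ : K.card ≤ Q.card := card_le_card (filter_subset _ _)
  have hKK : ∀ q ∈ K, a q ≤ H ∧ b q ≤ H ∧ a q ≠ b q ∧ Even ((b q : ℤ) - a q) := by
    intro q hq
    obtain ⟨h1, h2, h3⟩ := mem_filter.1 hq
    obtain ⟨h4, h5⟩ := hQ q h1
    have h6 := P_mono (show q + 2 ≤ 2 * n + 2 by omega)
    have h7 := (P_odd (show 2 ≤ q + 2 by omega)).2
    have h8 : q % 2 = 1 := by
      rcases h4.eq_two_or_odd with h | h
      · exact absurd h h2
      · exact h
    refine ⟨?_, ?_, h3, ?_⟩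
    · simp only [ha]
      omega
    · simp only [hb]
      omega
    · rw [Int.even_iff]
      simp only [ha, hb]
      have h9 : ((2 * n + x - q : ℕ) : ℤ) = 2 * n + x - q := by
        rw [Nat.cast_sub (by omega)]
        push_cast
        ring
      rw [h9]
      push_cast
      omega
  have hinj : Set.InjOn (fun q => (b q : ℤ) - a q) K := by
    intro k hk k' hk' e
    obtain ⟨e1, -⟩ := mem_filter.1 hk
    obtain ⟨e3, -⟩ := mem_filter.1 hk'
    simp only at e
    rcases lt_trichotomy k k' with h | h | h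
    · have := haS k e1 k' e3 h
      omega
    · exact h
    · have := haS k' e3 k e1 h
      omega
  have hcR : (Q.card : ℝ) ≤ K.card + 2 := by exact_mod_cast hcount
  have hLA : 0 < L ^ A := by positivity
  -- `Q` is large
  have hQ16 : (16 : ℝ) * L ^ U ≤ Q.card := by
    have e1 : (16 : ℝ) * L ^ U * L ^ A ≤ Q.card * L ^ A := by
      calc (16 : ℝ) * L ^ U * L ^ A = 16 * L ^ (A + U) := by ring
        _ ≤ n := g3
        _ ≤ _ := hnQ
    exact le_of_mul_le_mul_right e1 hLA
  have hLU : (1 : ℝ) ≤ L ^ U := one_le_pow₀ (by linarith)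
  have hHK : (H : ℝ) ≤ Real.log H ^ (2 * A + 1) * K.card := by
    have e1 : (Q.card : ℝ) ≤ L * K.card := by
      have e2 : (16 : ℝ) ≤ Q.card := by linarith
      nlinarith
    calc (H : ℝ) ≤ n * L ^ A := hHn
      _ ≤ (Q.card * L ^ A) * L ^ A := by gcongr
      _ ≤ ((L * K.card) * L ^ A) * L ^ A := by gcongr
      _ = L ^ (2 * A + 1) * K.card := by ring
      _ ≤ Real.log H ^ (2 * A + 1) * K.card := by gcongr
  set E : Finset ℕ := K.filter (fun k => ¬ GoodPair c A m ε δ H (a k) (b k)) with hE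
  have h4 := h0 H (g0.trans hnH) K a b hKK hinj hHK E (filter_subset _ _)
    (fun k hk => (mem_filter.1 hk).2)
  -- the exceptions
  have hsub : {q : ℕ | q ∈ Q ∧ ¬ Rich (c / 4) A m ε δ n q x y H} ⊆
      ((E ∪ ({2} ∪ Q.filter (fun q => ¬ a q ≠ b q)) : Finset ℕ) : Set ℕ) := by
    rintro q ⟨hq, hk⟩
    rw [Finset.mem_coe, mem_union, mem_union, mem_singleton]
    by_cases hk1 : q = 2
    · exact Or.inr (Or.inl hk1)
    by_cases hab : a q ≠ b q
    · left
      rw [hE, mem_filter]
      refine ⟨mem_filter.2 ⟨hq, hk1, hab⟩, fun hG => hk ?_⟩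
      intro v X hvX hX
      obtain ⟨e1, e2⟩ := hG v X hvX (le_trans (by gcongr) hX)
      have e3 : CS (a q) (b q) v X = Shifts n q x y v X := by
        unfold CS Shifts
        rw [p_eq]
        have hq2 := (hQ q hq).2
        ext h
        have e5 : a q + h = 2 * n + x + h - q := by
          simp only [ha]
          omega
        have e6 : b q + h = P (q + 2) + (y + h) := by
          simp only [hb]
          ring
        constructor
        · rintro ⟨f1, f2, f3, f4⟩
          rw [e5] at f3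
          rw [e6] at f4
          exact ⟨f1, f2, f3, f4⟩
        · rintro ⟨f1, f2, f3, f4⟩
          rw [← e5] at f3
          rw [← e6] at f4
          exact ⟨f1, f2, f3, f4⟩
      rw [e3] at e1 e2
      refine ⟨le_trans ?_ e1, e2⟩
      have e4 : (X : ℝ) / (2 * L) ^ 2 ≤ X / Real.log H ^ 2 := by
        apply div_le_div_of_nonneg_left (Nat.cast_nonneg _)
        · have : 0 < Real.log H := by linarith
          positivity
        · exact pow_le_pow_left₀ (by linarith) hlog2 2
      calc c / 4 * (X / L ^ 2) = c * (X / (2 * L) ^ 2) := by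
            field_simp
            ring
        _ ≤ c * (X / Real.log H ^ 2) := mul_le_mul_of_nonneg_left e4 hc.le
    · exact Or.inr (Or.inr (mem_filter.2 ⟨hq, hab⟩))
  have h5 := Set.ncard_le_ncard hsub (Finset.finite_toSet _)
  rw [Set.ncard_coe_finset] at h5
  have h6 : (E ∪ ({2} ∪ Q.filter (fun q => ¬ a q ≠ b q)) : Finset ℕ).card ≤ E.card + 2 := by
    have h2 := card_union_le E ({2} ∪ Q.filter (fun q => ¬ a q ≠ b q))
    have h3 := card_union_le ({2} : Finset ℕ) (Q.filter (fun q => ¬ a q ≠ b q))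
    rw [card_singleton] at h3
    omega
  have h7 : (({q : ℕ | q ∈ Q ∧ ¬ Rich (c / 4) A m ε δ n q x y H}.ncard : ℕ) : ℝ) ≤ E.card + 2 := by
    exact_mod_cast h5.trans h6
  have h8 : (E.card : ℝ) ≤ Q.card / L ^ U / 8 := by
    refine h4.trans ?_
    have e1 : (K.card : ℝ) ≤ Q.card := by exact_mod_cast hKQ
    calc (K.card : ℝ) / Real.log H ^ (U + 1) ≤ Q.card / L ^ (U + 1) := by gcongr
      _ = Q.card / L ^ U / L := by
          rw [pow_succ]
          field_simp
      _ ≤ Q.card / L ^ U / 8 := by gcongr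
  have h9 : (2 : ℝ) ≤ Q.card / L ^ U / 8 := by
    rw [div_div, le_div_iff₀ (by positivity)]
    linarith
  have h10 : 0 ≤ (Q.card : ℝ) / L ^ U := by positivity
  linarith

end Pool.Agent.Results.MP_0ec542_nt.PatternsOfShifts
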