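import Pool.Agent.Helper34.GF.All
import Pool.Graph.R_pool_sql_team_seeded_64922ed1.X28.SX.StepI

/-!
# Sums of a prime and a product of two primes with conditions on the indices, for all moduli up to `x ^ (1 - ε)`

The question asks, for every even `N = 2 n > 4`, for a prime `q` such that `N - q` and `p_{q + 2} + 2` are primes. Here
`N - q = k p'` with primes `k ∈ K` and `p'`, where `K` is an ARBITRARY set of primes between `x ^ κ` and `x ^ τ`,
`τ ≤ 1 / 51`, with `H = ∑_{k ∈ K} 1 / k ≥ 1 / (log x) ^ U`. There is a set `D` of at most `(log x) ^ c` integers, all of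
them larger than any given power of `log x`, such that for every modulus `r ≤ x ^ (1 - τ - ρ)` which is not divisible by a
member of `D`, in EVERY residue class modulo `r` all but at most `x / (r (log x) ^ A)` of the even integers `N` in
`(x / 2, x]` have the following property (in the classes `a` modulo `r` with `(a, r) ≤ (log x) ^ T` this holds for every
`r ≤ x ^ (1 - τ - ρ)`). In every window `(u, v]` of length at least `N / (log N) ^ W`, for all injective index maps
`φ_1, …, φ_s` (for instance `q ↦ q + 2` and `q ↦ N - q + 2`) and almost all vectors of shifts `t_1, …, t_s` in long windows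
of multiples of a small primorial, there are at least `((1 - δ) / 4) H` times the number expected for `N - q` prime of primes
`q` such that `N - q = k p'` and all the numbers `p_{φ_i(q)} + t_i` are primes.

Definition used (in `Pool.Agent.H560R3.GB`): `sing n = 2 C₂ ∏_{p ∣ n, p > 2} (p - 1) / (p - 2)`,
`C₂ = ∏_{p > 2} (1 - 1 / (p - 1) ^ 2)`. From Mathlib: `primorial y`: the product of the primes `≤ y`;
`Nat.nth Nat.Prime k`: the prime `p_{k + 1}`.

The proof combines the asymptotic formula for the solutions of `N = q + k p'` in windows, `Helper34/GF` (hand-in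
`MP_92f640_nt.PrimeCoefficients`), with the theorem `stepI` of the library (arbitrary dense index sets).
-/

set_option autoImplicit false

namespace Pool.Agent.Results.MP_0ec542_nt.ProductsOfTwoPrimes

open Finset
open Pool.Agent.H560R3.GB (sing)

/-- the `k`-th prime, `p 1 = 2` -/
noncomputable def p (k : ℕ) : ℕ := Nat.nth Nat.Prime (k - 1)

/-- the product of `1 - 1/q` over the primes `q ≤ y` -/
noncomputable def V (y : ℕ) : ℝ := ∏ q ∈ (Icc 1 y).filter Nat.Prime, (1 - 1 / (q : ℝ))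

/-- the sum of `1 / k` over `K` -/
noncomputable def dens (K : Finset ℕ) : ℝ := ∑ k ∈ K, (1 : ℝ) / k

open Classical in
/-- the primes `q` in `(u, v]` for which `N - q = k p'` with `k ∈ K` and a prime `p'`, and all the numbers
`p_{φ i q} + t i`, `i < s`, are prime -/
noncomputable def Sol (K : Finset ℕ) (N u v : ℕ) {s : ℕ} (φ : Fin s → ℕ → ℕ) (t : Fin s → ℕ) : Finset ℕ :=
  (Ioc u v).filter (fun q => q.Prime ∧ (∃ k ∈ K, ∃ p' : ℕ, p'.Prime ∧ q + k * p' = N) ∧
    ∀ i, (p (φ i q) + t i).Prime)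

open Classical in
/-- The property of `N`: for every window `(u, v]` in `(0, N)` with `v - u ≥ N / (log N) ^ W`, every `y` between
`K₀ log log x` and `K₁ log log x`, with `M` the product of the primes `≤ y`, all index maps `φ_1, …, φ_s` which are injective
on `{0, …, N}` and have their values there in `[1, 4 x]`, and all windows `(h₀_i, h₀_i + H_i]` with `M (h₀_i + H_i) ≤ x` and
`M H_i ≥ x / (log x) ^ C`: for all but at most `δ H_1 ⋯ H_s` of the vectors `h` with `1 ≤ h_i ≤ H_i` there are at least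
`((1 - δ) / 4) (∑_{k ∈ K} 1 / k) sing N (v - u) / ((log N)² (V y log x) ^ s)` primes `q` in `(u, v]` such that
`N - q = k p'` with `k ∈ K` and a prime `p'`, and all the numbers `p_{φ_i(q)} + M (h₀_i + h_i)` are primes. -/
def Rich (x s W C K₀ K₁ : ℕ) (δ : ℝ) (K : Finset ℕ) (N : ℕ) : Prop :=
  ∀ u v : ℕ, u < v → v < N → (N : ℝ) / Real.log N ^ W ≤ (v : ℝ) - u →
  ∀ y : ℕ, K₀ * Real.log (Real.log x) ≤ y → y ≤ K₁ * Real.log (Real.log x) →
  ∀ φ : Fin s → ℕ → ℕ, (∀ i, Set.InjOn (φ i) (Set.Iic N)) → (∀ i, ∀ q ≤ N, 1 ≤ φ i q ∧ φ i q ≤ 4 * x) →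
  ∀ h₀ H : Fin s → ℕ, (∀ i, primorial y * (h₀ i + H i) ≤ x) →
    (∀ i, (x : ℝ) ≤ primorial y * H i * Real.log x ^ C) →
    (((Fintype.piFinset (fun i => Icc 1 (H i))).filter (fun h : Fin s → ℕ =>
      ((Sol K N u v φ (fun i => primorial y * (h₀ i + h i))).card : ℝ) <
        (1 - δ) / 4 * (sing N * dens K * ((v : ℝ) - u) / (Real.log N ^ 2 * (V y * Real.log x) ^ s)))).card : ℝ) ≤
      δ * ∏ i, (H i : ℝ)

/-- The even integers `N ≡ a (mod r)` with `x / 2 < N ≤ x` without this property. -/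
def exceptional (x s W C K₀ K₁ : ℕ) (δ : ℝ) (K : Finset ℕ) (r : ℕ) (a : ℤ) : Set ℕ :=
  {N : ℕ | x < 2 * N ∧ N ≤ x ∧ 2 ∣ N ∧ (N : ℤ) ≡ a [ZMOD r] ∧ ¬ Rich x s W C K₀ K₁ δ K N}

/-- every number is a product `k p'` for at most two members `k` of a set of primes -/
lemma two_le {K : Finset ℕ} (hK : ∀ k ∈ K, k.Prime) (m : ℕ) :
    (K.filter (fun k => k ∣ m ∧ (m / k).Prime)).card ≤ 2 := by
  classical
  rcases (K.filter (fun k => k ∣ m ∧ (m / k).Prime)).eq_empty_or_nonempty with h | ⟨k₁, hk₁⟩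
  · rw [h]; simp
  · rw [mem_filter] at hk₁
    obtain ⟨h1, h2, h3⟩ := hk₁
    have hsub : K.filter (fun k => k ∣ m ∧ (m / k).Prime) ⊆ {k₁, m / k₁} := by
      intro k hk
      rw [mem_filter] at hk
      rw [mem_insert, mem_singleton]
      have h4 : k ∣ k₁ * (m / k₁) := by
        rw [Nat.mul_div_cancel' h2]
        exact hk.2.1
      rcases ((hK k hk.1).dvd_mul).1 h4 with h5 | h5
      · left
        exact (Nat.prime_dvd_prime_iff_eq (hK k hk.1) (hK k₁ h1)).1 h5
      · right
        exact (Nat.prime_dvd_prime_iff_eq (hK k hk.1) h3).1 h5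
    exact (card_le_card hsub).trans card_le_two

open Classical in
/-- the weighted number of solutions and the number of primes `q` -/
lemma weight_le {K : Finset ℕ} (hK : ∀ k ∈ K, k.Prime) {N u v : ℕ} (hv : v < N) {J : Finset ℕ}
    (hJ : J = (Ioc u v).filter (fun q => q.Prime ∧ ∃ k ∈ K, ∃ p' : ℕ, p'.Prime ∧ q + k * p' = N)) :
    Pool.Agent.Helper34.GE.reps K N u v ≤ 2 * Real.log N ^ 2 * J.card := by
  unfold Pool.Agent.Helper34.GE.reps
  have h1 : ∀ q ∈ (Ioc u v).filter Nat.Prime, ∑ k ∈ K.filter (fun k => k ∣ N - q ∧ ((N - q) / k).Prime),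
      Real.log q * Real.log ((N - q) / k : ℕ) ≤ if q ∈ J then 2 * Real.log N ^ 2 else 0 := by
    intro q hq
    rw [mem_filter, mem_Ioc] at hq
    by_cases hqJ : q ∈ J
    · rw [if_pos hqJ]
      have h2 : ∀ k ∈ K.filter (fun k => k ∣ N - q ∧ ((N - q) / k).Prime),
          Real.log q * Real.log ((N - q) / k : ℕ) ≤ Real.log N ^ 2 := by
        intro k hk
        rw [mem_filter] at hk
        have a1 : Real.log q ≤ Real.log N :=
          Real.log_le_log (by exact_mod_cast hq.2.pos) (by exact_mod_cast (by omega : q ≤ N))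
        have a2 : Real.log ((N - q) / k : ℕ) ≤ Real.log N := by
          apply Real.log_le_log (by exact_mod_cast hk.2.2.pos)
          have : (N - q) / k ≤ N := (Nat.div_le_self _ _).trans (Nat.sub_le _ _)
          exact_mod_cast this
        rw [sq]
        exact mul_le_mul a1 a2 (Real.log_natCast_nonneg _) (Real.log_natCast_nonneg _)
      refine (sum_le_sum h2).trans ?_
      rw [sum_const, nsmul_eq_mul]
      have h3 : ((K.filter (fun k => k ∣ N - q ∧ ((N - q) / k).Prime)).card : ℝ) ≤ 2 := by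
        exact_mod_cast two_le hK (N - q)
      exact mul_le_mul_of_nonneg_right h3 (by positivity)
    · rw [if_neg hqJ]
      apply le_of_eq
      apply sum_eq_zero
      intro k hk
      exfalso
      apply hqJ
      rw [mem_filter] at hk
      rw [hJ, mem_filter, mem_Ioc]
      refine ⟨hq.1, hq.2, k, hk.1, (N - q) / k, hk.2.2, ?_⟩
      rw [Nat.mul_div_cancel' hk.2.1]
      omega
  refine (sum_le_sum h1).trans ?_
  rw [← sum_filter, sum_const, nsmul_eq_mul, mul_comm]
  apply mul_le_mul_of_nonneg_left _ (by positivity)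
  have h4 : ((Ioc u v).filter Nat.Prime).filter (fun q => q ∈ J) ⊆ J := by
    intro q hq
    exact (mem_filter.1 hq).2
  exact_mod_cast card_le_card h4

/-- For all `κ > 0`, `0 < τ ≤ 1 / 51`, `ρ > 0`, `0 < δ ≤ 1`, `A`, `T`, `U`, `W`, `C`, `s` there are `c` and `K₀` such that
for all `B`, `K₁`, all sufficiently large integers `x` and EVERY set `K` of primes in `[x ^ κ, x ^ τ]` with
`∑_{k ∈ K} 1 / k ≥ 1 / (log x) ^ U` there is a finite set `D` of at most `(log x) ^ c` integers, all of them larger than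
`(log x) ^ B`, such that for every `1 ≤ r ≤ x ^ (1 - τ - ρ)` and every integer `a`, if `gcd(a, r) ≤ (log x) ^ T` or `r` is
not divisible by a member of `D`, all but at most `x / (r (log x) ^ A)` of the even integers `N ≡ a (mod r)` in
`(x / 2, x]` have the property `Rich`. -/
theorem result (κ τ ρ δ : ℝ) (hκ : 0 < κ) (hτ0 : 0 < τ) (hτ : τ ≤ 1 / 51) (hρ : 0 < ρ) (hδ : 0 < δ) (hδ1 : δ ≤ 1)
    (A T U W C s : ℕ) :
    ∃ c K₀ : ℕ, ∀ B K₁ : ℕ, ∃ x₀ : ℕ, ∀ x : ℕ, x₀ ≤ x → ∀ K : Finset ℕ,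
      (∀ k ∈ K, k.Prime ∧ (x : ℝ) ^ κ ≤ k ∧ (k : ℝ) ≤ (x : ℝ) ^ τ) → 1 / Real.log x ^ U ≤ dens K →
      ∃ D : Finset ℕ, (D.card : ℝ) ≤ Real.log x ^ c ∧
      (∀ d ∈ D, Real.log x ^ B < (d : ℝ)) ∧
      ∀ r : ℕ, 1 ≤ r → (r : ℝ) ≤ (x : ℝ) ^ (1 - τ - ρ) → ∀ a : ℤ,
        ((Int.gcd a r : ℝ) ≤ Real.log x ^ T ∨ ∀ d ∈ D, ¬ d ∣ r) →
        (exceptional x s W C K₀ K₁ δ K r a).Finite ∧
        ((exceptional x s W C K₀ K₁ δ K r a).ncard : ℝ) ≤ x / (r * Real.log x ^ A) := by
  classical
  obtain ⟨c, h⟩ := Pool.Agent.Helper34.GF.thm_final hκ hτ0 hτ (show 1 - τ - ρ < 1 - τ by linarith) A T (U + W + 2)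
  obtain ⟨K₀, hK₀⟩ := Pool.Agent.X28.SX.stepI (ι := Fin s) (fun _ => 1) (fun _ => Or.inl rfl) (U + W + 3) 2 C δ hδ hδ1
  refine ⟨c, K₀, fun B K₁ => ?_⟩
  obtain ⟨x₁, h⟩ := h B
  obtain ⟨n1, hn1⟩ := hK₀ K₁
  obtain ⟨n2, hn2⟩ := Pool.Agent.X28.SX.nth_le
  obtain ⟨n3, hn3⟩ := Pool.Agent.H373R2.T7.ev_L' 24
  refine ⟨max (max n1 n2) (max n3 (⌈x₁⌉₊ + 1)), fun x hx K hK hdK => ?_⟩
  have b1 : n1 ≤ x := (le_max_left _ _).trans ((le_max_left _ _).trans hx)
  have b2 : n2 ≤ x := (le_max_right _ _).trans ((le_max_left _ _).trans hx)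
  have b3 : n3 ≤ x := (le_max_left _ _).trans ((le_max_right _ _).trans hx)
  have b4 : ⌈x₁⌉₊ + 1 ≤ x := (le_max_right _ _).trans ((le_max_right _ _).trans hx)
  have hxx1 : x₁ ≤ (x : ℝ) := by
    have h1 : ⌈x₁⌉₊ ≤ x := by omega
    exact (Nat.le_ceil x₁).trans (by exact_mod_cast h1)
  have hx1 : 1 ≤ x := by omega
  have hL24 := hn3 x b3
  obtain ⟨D, hD1, hD2, hD⟩ := h x hxx1 K hK
  refine ⟨D, hD1, hD2, fun r hr hrx a ha => ?_⟩
  obtain ⟨f1, f2⟩ := hD r hr hrx a ha
  have hsub : exceptional x s W C K₀ K₁ δ K r a ⊆ {n : ℕ | 0 < n ∧ (n : ℝ) ≤ (x : ℝ) ∧ 2 ∣ n ∧ (n : ℤ) ≡ a [ZMOD r] ∧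
      ¬ Pool.Agent.Helper34.GE.Formula (U + W + 2) x K n} := by
    rintro N ⟨e1, e2, e3, e4, e5⟩
    refine ⟨by omega, by exact_mod_cast e2, e3, e4, fun hw => e5 ?_⟩
    intro u v huv hvN hlen y hy1 hy2 φ hφ hφ' h₀ H hH1 hH2
    obtain ⟨J, hJ⟩ : ∃ J, J = (Ioc u v).filter (fun q => q.Prime ∧ ∃ k ∈ K, ∃ p' : ℕ, p'.Prime ∧ q + k * p' = N) :=
      ⟨_, rfl⟩
    have hxr : (0 : ℝ) < x := by exact_mod_cast hx1
    have hNr : (x : ℝ) < 2 * N := by exact_mod_cast e1
    have hNx : (N : ℝ) ≤ x := by exact_mod_cast e2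
    have hN0 : (0 : ℝ) < N := by linarith
    have hL0 : 0 < Real.log x := by linarith
    have hLN : Real.log N ≤ Real.log x := Real.log_le_log hN0 hNx
    have hLN1 : 1 ≤ Real.log N := by
      have h1 : Real.log ((x : ℝ) / 2) ≤ Real.log N := Real.log_le_log (by positivity) (by linarith)
      rw [Real.log_div hxr.ne' (by norm_num)] at h1
      have h2 := Real.log_two_lt_d9
      linarith
    have hs1 : 1 ≤ sing N := Pool.Agent.R460.GS.one_le_sing N
    have hS0 : 0 < dens K := lt_of_lt_of_le (by positivity) hdK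
    -- the main term
    obtain ⟨m, hm⟩ : ∃ m, m = sing N * dens K * ((v : ℝ) - u) := ⟨_, rfl⟩
    have hmain : (x : ℝ) / Real.log x ^ (U + W) / 2 ≤ m := by
      have h1 : (N : ℝ) / Real.log x ^ W ≤ (v : ℝ) - u := by
        refine le_trans ?_ hlen
        exact div_le_div_of_nonneg_left hN0.le (by positivity) (pow_le_pow_left₀ (by linarith) hLN W)
      have h2 : (x : ℝ) / Real.log x ^ (U + W) / 2 ≤ 1 / Real.log x ^ U * (N / Real.log x ^ W) := by
        rw [pow_add]
        have h3 : 1 / Real.log x ^ U * ((N : ℝ) / Real.log x ^ W) = N / (Real.log x ^ U * Real.log x ^ W) := by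
          field_simp
        rw [h3, div_div, mul_comm _ (2 : ℝ), ← div_div]
        apply div_le_div_of_nonneg_right _ (by positivity)
        linarith
      have h4 : 1 / Real.log x ^ U * ((N : ℝ) / Real.log x ^ W) ≤ dens K * ((v : ℝ) - u) :=
        mul_le_mul hdK h1 (by positivity) hS0.le
      have h5 : 0 ≤ dens K * ((v : ℝ) - u) := le_trans (by positivity) h4
      rw [hm]
      nlinarith
    have hF := (abs_le.1 (hw u v huv.le hvN)).1
    have hdens : (∑ k ∈ K, (1 : ℝ) / k) = dens K := rfl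
    rw [hdens, ← hm] at hF
    have herr : (x : ℝ) / Real.log x ^ (U + W + 2) ≤ m / 2 := by
      have h1 : (x : ℝ) / Real.log x ^ (U + W + 2) = (x / Real.log x ^ (U + W) / 2) * (2 / Real.log x ^ 2) := by
        rw [pow_add]
        field_simp
      have h2 : 2 / Real.log x ^ 2 ≤ 1 / 2 := by
        rw [div_le_div_iff₀ (by positivity) (by norm_num)]
        nlinarith
      rw [h1]
      have h3 : 0 ≤ (x : ℝ) / Real.log x ^ (U + W) / 2 := by positivity
      calc (x : ℝ) / Real.log x ^ (U + W) / 2 * (2 / Real.log x ^ 2) ≤ m * (1 / 2) :=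
            mul_le_mul hmain h2 (by positivity) (h3.trans hmain)
        _ = m / 2 := by ring
    have hwt := weight_le (fun k hk => (hK k hk).1) hvN hJ
    have hJc : 1 / 4 * (m / Real.log N ^ 2) ≤ (J.card : ℝ) := by
      have h1 : m / 2 ≤ 2 * Real.log N ^ 2 * J.card := by linarith
      have h2 : 1 / 4 * (m / Real.log N ^ 2) = (m / 4) / Real.log N ^ 2 := by ring
      rw [h2, div_le_iff₀ (by positivity)]
      linarith
    have hd : (x : ℝ) ≤ J.card * Real.log x ^ (U + W + 3) := by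
      have h0 : 0 ≤ m := le_trans (by positivity) hmain
      have h1 : (x : ℝ) / Real.log x ^ (U + W) / 2 / Real.log x ^ 2 ≤ m / Real.log N ^ 2 := by
        apply div_le_div₀ h0 hmain (by positivity)
        exact pow_le_pow_left₀ (by linarith) hLN 2
      have h3 : (x : ℝ) / Real.log x ^ (U + W) / 2 / Real.log x ^ 2 * Real.log x ^ (U + W + 3) =
          x * Real.log x / 2 := by
        rw [pow_add _ (U + W) 3]
        field_simp
      have h5 : 0 < Real.log x ^ (U + W + 3) := by positivity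
      calc (x : ℝ) ≤ 1 / 4 * (x * Real.log x / 2) := by nlinarith
        _ = 1 / 4 * ((x : ℝ) / Real.log x ^ (U + W) / 2 / Real.log x ^ 2) * Real.log x ^ (U + W + 3) := by
            rw [mul_assoc, h3]
        _ ≤ 1 / 4 * (m / Real.log N ^ 2) * Real.log x ^ (U + W + 3) := by gcongr
        _ ≤ J.card * Real.log x ^ (U + W + 3) := mul_le_mul_of_nonneg_right hJc h5.le
    have hJN : ∀ q ∈ J, q ≤ N := by
      intro q hq
      rw [hJ, mem_filter, mem_Ioc] at hq
      omega
    have key := hn1 x b1 y hy1 hy2 J hd (fun i q => p (φ i q)) (fun i q hq q' hq' heq => by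
        have g1 := hJN q hq
        have g2 := hJN q' hq'
        have g3 := Pool.Agent.X28.SX.nth_inj' (hφ' i q g1).1 (hφ' i q' g2).1 heq
        exact hφ i g1 g2 g3)
      (fun i q hq => ⟨Nat.prime_nth_prime _, hn2 x b2 _ (hφ' i q (hJN q hq)).2⟩)
      h₀ H (fun i => by rw [pow_one]; exact hH1 i) (fun i => by rw [pow_one]; exact hH2 i)
    simp only [prod_const, card_univ, Fintype.card_fin] at key
    have hVz : Pool.Agent.H373R2.T7.Vz y = V y := rfl
    rw [hVz] at key
    have e1' : V y * (((1 : ℕ) : ℝ) * Real.log x) = V y * Real.log x := by push_cast; ring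
    rw [e1'] at key
    refine le_trans ?_ key
    rw [Nat.cast_le]
    apply card_le_card
    intro h hh
    rw [mem_filter] at hh ⊢
    refine ⟨hh.1, ?_⟩
    have h1 := hh.2
    have h2 : (Sol K N u v φ (fun i => primorial y * (h₀ i + h i))).card =
        (J.filter (fun j => ∀ i, (p (φ i j) ^ 1 + primorial y * (h₀ i + h i)).Prime)).card := by
      rw [hJ, filter_filter]
      unfold Sol
      simp only [pow_one, and_assoc]
    rw [h2] at h1
    refine lt_of_le_of_lt (le_of_eq ?_) (lt_of_lt_of_le h1 ?_)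
    · congr
    have hV0 : 0 < V y := by rw [← hVz]; exact Pool.Agent.H373R2.T7.Vz_pos y
    have hVL : 0 < (V y * Real.log x) ^ s := by positivity
    have h3 : (1 - δ) / 4 * (sing N * dens K * ((v : ℝ) - u) / (Real.log N ^ 2 * (V y * Real.log x) ^ s)) =
        (1 - δ) * (1 / 4 * (m / Real.log N ^ 2) / (V y * Real.log x) ^ s) := by
      rw [← div_div, hm]
      ring
    rw [h3]
    apply mul_le_mul_of_nonneg_left _ (by linarith)
    exact div_le_div_of_nonneg_right hJc hVL.le
  refine ⟨f1.subset hsub, le_trans ?_ f2⟩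
  exact_mod_cast Set.ncard_le_ncard hsub f1

end Pool.Agent.Results.MP_0ec542_nt.ProductsOfTwoPrimes
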